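import Pool.Agent.H645.LD.KH0

/-!
# MP_3844f5_an: the Kunen-Haydon measure is not separable
-/

set_option autoImplicit false

open MeasureTheory Set Filter
open scoped ENNReal NNReal Topology
open Pool.Agent.W6h79.LD Pool.Agent.H624.LD

noncomputable section

namespace Pool.Agent.H645.LD

universe u

theorem sKH3 : S_KH3.{u} := by
  intro A _ _ H hH h hm hD
  set φ : (A → Bool) → KK H := fun x => ⟨Phi H x, h x⟩ with hφ
  have hφm : Measurable φ := hm.subtype_mk
  set μ : Measure (KK H) := (coins A).map φ with hμ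
  have : IsProbabilityMeasure μ := Measure.isProbabilityMeasure_map hφm.aemeasurable
  obtain ⟨D, hD1, hD2⟩ := hD
  let U : A → Set (KK H) := fun a => {y | (y : A → Bool) a = true}
  have hU : ∀ a, MeasurableSet (U a) := fun a => by
    have h1 : Measurable fun y : KK H => (y : A → Bool) a :=
      (measurable_pi_apply a).comp measurable_subtype_coe
    exact h1 (measurableSet_singleton true)
  let f : A → Lp ℝ 1 μ := fun a => indicatorConstLp 1 (hU a) (measure_ne_top μ (U a)) (1 : ℝ)
  have hdist : ∀ a b, b < a → (4 : ℝ)⁻¹ ≤ dist (f a) (f b) := by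
    intro a b hab
    have h1 : dist (f a) (f b) = μ.real (symmDiff (U a) (U b)) := by
      show dist (indicatorConstLp 1 (hU a) _ (1 : ℝ)) (indicatorConstLp 1 (hU b) _ (1 : ℝ)) = _
      rw [dist_indicatorConstLp_eq_norm, norm_indicatorConstLp one_ne_zero ENNReal.one_ne_top]
      simp
    have h2 : μ (symmDiff (U a) (U b)) = coins A {x | Phi H x a ≠ Phi H x b} := by
      rw [hμ, Measure.map_apply hφm ((hU a).symmDiff (hU b))]
      congr 1
      ext x
      show (φ x ∈ U a ∧ φ x ∉ U b) ∨ (φ x ∈ U b ∧ φ x ∉ U a) ↔ Phi H x a ≠ Phi H x b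
      show (Phi H x a = true ∧ ¬ Phi H x b = true) ∨ (Phi H x b = true ∧ ¬ Phi H x a = true) ↔ _
      cases Phi H x a <;> cases Phi H x b <;> simp
    rw [h1, Measure.real, h2]
    have h3 := quarter hH hm hab
    have h4 := ENNReal.toReal_mono (measure_ne_top _ _) h3
    simpa using h4
  have hsep : ∀ a b, a ≠ b → (4 : ℝ)⁻¹ ≤ dist (f a) (f b) := by
    intro a b hab
    rcases lt_or_gt_of_ne hab with h1 | h1
    · rw [dist_comm]
      exact hdist b a h1
    · exact hdist a b h1
  have hex : ∀ a, ∃ d ∈ D, dist (f a) d < (8 : ℝ)⁻¹ := fun a =>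
    hD1.exists_dist_lt (f a) (by norm_num)
  choose g hg1 hg2 using hex
  have hinj : Function.Injective fun a => (⟨g a, hg1 a⟩ : D) := by
    intro a b hab
    by_contra hne
    have h1 : g a = g b := congrArg Subtype.val hab
    have h2 := hsep a b hne
    have h3 := dist_triangle_right (f a) (f b) (g a)
    have h4 := hg2 a
    have h5 := hg2 b
    rw [← h1] at h5
    have : (8 : ℝ)⁻¹ + 8⁻¹ = 4⁻¹ := by norm_num
    linarith
  have h1 := Cardinal.mk_le_of_injective hinj
  rw [hH.card] at h1
  exact absurd hD2 (not_lt.2 h1)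

end Pool.Agent.H645.LD
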