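import Pool.Agent.H645.LD.KH0
import Pool.Graph.R_pool_sql_team_seeded_9f66d723.W6h79.LD.D2

/-!
# MP_3844f5_an: measures singular to the Kunen-Haydon measure
-/

set_option autoImplicit false

open MeasureTheory Set Filter
open scoped ENNReal NNReal Topology
open Pool.Agent.W6h79.LD Pool.Agent.H624.LD

noncomputable section

namespace Pool.Agent.H645.LD

universe u

/-- countably many elements have an upper bound -/
theorem KH.bdd {A : Type u} [LinearOrder A] [WellFoundedLT A] {H : A → Set (A → Bool)}
    (hH : KH A H) (s : ℕ → A) : ∃ a₀, ∀ n, s n ≤ a₀ := by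
  by_contra hcon
  push Not at hcon
  have h1 : (univ : Set A) = ⋃ n, Iio (s n) := by
    ext a
    simp only [mem_univ, mem_iUnion, mem_Iio, true_iff]
    exact hcon a
  have h2 : (univ : Set A).Countable := by
    rw [h1]
    exact countable_iUnion fun n => hH.ctbl _
  have h3 := Cardinal.le_aleph0_iff_set_countable.2 h2
  rw [Cardinal.mk_univ, hH.card] at h3
  exact absurd h3 (not_le.2 Cardinal.aleph0_lt_aleph_one)

theorem sKH4 : S_KH4.{u} := by
  classical
  intro A _ _ H hH h hm ν hν hsing
  set φ : (A → Bool) → KK H := fun x => ⟨Phi H x, h x⟩ with hφ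
  have hφm : Measurable φ := hm.subtype_mk
  obtain ⟨B, hB, hB1, hB2⟩ := hsing
  obtain ⟨C', hC', hBC⟩ := hB.compl
  -- the set depends on countably many coordinates
  obtain ⟨I, hI, hdep⟩ := sD2 A (C'.indicator fun _ => (1 : ℝ)) (measurable_const.indicator hC')
  have hdep' : ∀ x y : A → Bool, (∀ i ∈ I, x i = y i) → (x ∈ C' ↔ y ∈ C') := by
    intro x y hxy
    have h1 := hdep x y hxy
    by_cases hx : x ∈ C' <;> by_cases hy : y ∈ C'
    · exact iff_of_true hx hy
    · rw [indicator_of_mem hx, indicator_of_notMem hy] at h1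
      exact absurd h1 one_ne_zero
    · rw [indicator_of_notMem hx, indicator_of_mem hy] at h1
      exact absurd h1.symm one_ne_zero
    · exact iff_of_false hx hy
  have hIc : Countable I := hI.to_subtype
  let ext : (I → Bool) → (A → Bool) := fun y i => if hi : i ∈ I then y ⟨i, hi⟩ else false
  let res : (A → Bool) → (I → Bool) := fun x i => x i
  have hext : Measurable ext := measurable_pi_lambda _ fun i => by
    by_cases hi : i ∈ I
    · have : (fun y : I → Bool => ext y i) = fun y => y ⟨i, hi⟩ := by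
        funext y
        exact dif_pos hi
      rw [this]
      exact measurable_pi_apply _
    · have : (fun y : I → Bool => ext y i) = fun _ => false := by
        funext y
        exact dif_neg hi
      rw [this]
      exact measurable_const
  have hres : Measurable res := measurable_pi_lambda _ fun i => measurable_pi_apply _
  have hresc : Continuous res := continuous_pi fun i => continuous_apply _
  have hrex : ∀ x, (ext (res x) ∈ C' ↔ x ∈ C') := fun x => hdep' _ _ fun i hi => dif_pos hi
  let ψ : KK H → (I → Bool) := fun x => res x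
  have hψ : Measurable ψ := hres.comp measurable_subtype_coe
  let ν' : Measure (I → Bool) := ν.map ψ
  have : IsProbabilityMeasure ν' := Measure.isProbabilityMeasure_map hψ.aemeasurable
  have hC'' : MeasurableSet (ext ⁻¹' C') := hext hC'
  -- closed approximations
  have hF : ∀ n : ℕ, ∃ F ⊆ ext ⁻¹' C', IsClosed F ∧ ν' ((ext ⁻¹' C') \ F) < ((n : ℝ≥0∞) + 1)⁻¹ :=
    fun n => hC''.exists_isClosed_sdiff_lt (measure_ne_top ν' _)
      (ENNReal.inv_ne_zero.2 (by finiteness))
  choose F hF1 hF2 hF3 using hF
  let Z : ℕ → Set (A → Bool) := fun n => res ⁻¹' F n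
  have hZ : ∀ n, ∃ a₀, ∀ a, a₀ ≤ a → H a ∩ Z n = ∅ := fun n => by
    refine hH.avoid (Z n) I ((hF2 n).preimage hresc) hI (fun x y hxy => ?_) ?_
    · have : res x = res y := funext fun i => hxy i i.2
      show res x ∈ F n ↔ res y ∈ F n
      rw [this]
    · have h1 : (coins A).map φ Bᶜ = 0 := hB2
      rw [Measure.map_apply hφm hB.compl] at h1
      refine measure_mono_null ?_ h1
      intro x hx
      have h2 : Phi H x ∈ C' := (hrex _).1 (hF1 n hx)
      show φ x ∈ Bᶜ
      rw [← hBC]
      exact h2
  choose s hs using hZ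
  obtain ⟨a₀, ha₀⟩ := KH.bdd hH s
  refine ⟨a₀, fun a ha => ?_⟩
  have hmain : ∀ n : ℕ, ν {x : KK H | (x : A → Bool) a = true} ≤ ((n : ℝ≥0∞) + 1)⁻¹ := by
    intro n
    have h1 : {x : KK H | (x : A → Bool) a = true} ⊆ B ∪ ψ ⁻¹' ((ext ⁻¹' C') \ F n) := by
      intro x hx
      by_cases hxB : x ∈ B
      · exact Or.inl hxB
      · right
        have h2 : (x : A → Bool) ∈ C' := by
          have : x ∈ Subtype.val ⁻¹' C' := by rw [hBC]; exact hxB
          exact this
        refine ⟨(hrex _).2 h2, fun hxF => ?_⟩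
        have h3 : (x : A → Bool) ∈ H a := x.2 a hx
        have h4 : (x : A → Bool) ∈ H a ∩ Z n := ⟨h3, hxF⟩
        rw [hs n a ((ha₀ n).trans ha)] at h4
        exact h4
    refine (measure_mono h1).trans ((measure_union_le _ _).trans ?_)
    rw [hB1, zero_add]
    have h5 : ν (ψ ⁻¹' ((ext ⁻¹' C') \ F n)) = ν' ((ext ⁻¹' C') \ F n) :=
      (Measure.map_apply hψ (hC''.diff (hF2 n).measurableSet)).symm
    rw [h5]
    exact (hF3 n).le
  by_contra hne
  obtain ⟨n, hn⟩ := ENNReal.exists_inv_nat_lt hne
  have h1 := hmain n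
  have h2 : ((n : ℝ≥0∞) + 1)⁻¹ ≤ (n : ℝ≥0∞)⁻¹ := ENNReal.inv_le_inv.2 le_self_add
  exact absurd (h1.trans h2) (not_le.2 hn)

end Pool.Agent.H645.LD
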