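import Pool.Agent.H624.LD.Stm

/-!
# MP_3844f5_an: basic facts on the Kunen-Haydon map
-/

set_option autoImplicit false

open MeasureTheory Set Filter
open scoped ENNReal NNReal Topology
open Pool.Agent.W6h79.LD Pool.Agent.H624.LD

noncomputable section

namespace Pool.Agent.H645.LD

universe u

variable {A : Type u} [LinearOrder A] [WellFoundedLT A] {H : A → Set (A → Bool)}

open Classical in
theorem Phi_eq (x : A → Bool) (a : A) :
    Phi H x a = (x a && decide (tr a (Phi H x) ∈ H a)) := by
  unfold Phi
  rw [WellFounded.fix_eq]
  rfl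

theorem Phi_dep {x y : A → Bool} (a : A) (h : ∀ i, i ≤ a → x i = y i) :
    Phi H x a = Phi H y a := by
  induction a using WellFoundedLT.induction with
  | ind a ih =>
    have h1 : tr a (Phi H x) = tr a (Phi H y) := by
      funext b
      unfold tr
      by_cases hb : b < a
      · rw [if_pos hb, if_pos hb]
        exact ih b hb fun i hi => h i (hi.trans hb.le)
      · rw [if_neg hb, if_neg hb]
    rw [Phi_eq, Phi_eq, h1, h a le_rfl]

theorem tr_dep {x y : A → Bool} (a : A) (h : ∀ i, i < a → x i = y i) :
    tr a (Phi H x) = tr a (Phi H y) := by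
  funext b
  unfold tr
  by_cases hb : b < a
  · rw [if_pos hb, if_pos hb]
    exact Phi_dep b fun i hi => h i (hi.trans_lt hb)
  · rw [if_neg hb, if_neg hb]

theorem tr_mem {a : A} (hd : Dep (Iio a) (H a)) (y : A → Bool) : tr a y ∈ H a ↔ y ∈ H a := by
  refine hd _ _ fun i hi => ?_
  have hi' : i < a := hi
  unfold tr
  rw [if_pos hi']

open Classical in
/-- the coins are invariant under a flip -/
theorem flip_preserving (a : A) : MeasurePreserving (fun (x : A → Bool) (i : A) =>
    if i = a then !(x i) else x i) (coins A) (coins A) := by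
  have h1 : ∀ i : A, Measurable (fun b : Bool => if i = a then !b else b) := fun i =>
    measurable_of_countable _
  refine ⟨?_, ?_⟩
  · exact measurable_pi_lambda _ fun i => (h1 i).comp (measurable_pi_apply i)
  · unfold coins
    have h2 := Measure.infinitePi_map_pi (fun _ : A => coin) h1
    refine h2.trans ?_
    congr 1
    funext i
    by_cases hi : i = a
    · have h3 : (fun b : Bool => if i = a then !b else b) = Bool.not := by
        funext b
        rw [if_pos hi]
      rw [h3]
      refine Measure.ext_of_singleton fun b => ?_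
      rw [Measure.map_apply (measurable_of_countable _) (measurableSet_singleton b)]
      have h4 : Bool.not ⁻¹' {b} = {!b} := by
        ext c
        cases b <;> cases c <;> simp
      rw [h4, coin, Measure.smul_apply, Measure.smul_apply, Measure.count_singleton,
        Measure.count_singleton]
    · have h3 : (fun b : Bool => if i = a then !b else b) = id := by
        funext b
        rw [if_neg hi]
        rfl
      rw [h3, Measure.map_id]

/-- two coordinates of the image are different with probability at least `1/4` -/
theorem quarter (hH : KH A H) (hm : Measurable (Phi H)) {a b : A} (hab : b < a) :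
    (4⁻¹ : ℝ≥0∞) ≤ coins A {x | Phi H x a ≠ Phi H x b} := by
  classical
  let σ : (A → Bool) → (A → Bool) := fun x i => if i = a then !(x i) else x i
  have hσ : MeasurePreserving σ (coins A) (coins A) := flip_preserving a
  have hN : MeasurableSet {x | Phi H x a ≠ Phi H x b} := by
    have h1 : Measurable fun x => (Phi H x a, Phi H x b) :=
      ((measurable_pi_apply a).comp hm).prodMk ((measurable_pi_apply b).comp hm)
    exact h1 (MeasurableSet.of_discrete (s := {p : Bool × Bool | p.1 ≠ p.2}))
  have hsub : {x | Phi H x ∈ H a} ⊆ {x | Phi H x a ≠ Phi H x b} ∪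
      σ ⁻¹' {x | Phi H x a ≠ Phi H x b} := by
    intro x hx
    have hx' : Phi H x ∈ H a := hx
    have h1 : Phi H (σ x) b = Phi H x b := Phi_dep b fun i hi => by
      show (if i = a then !(x i) else x i) = x i
      rw [if_neg (hi.trans_lt hab).ne]
    have h2 : tr a (Phi H (σ x)) = tr a (Phi H x) := tr_dep a fun i hi => by
      show (if i = a then !(x i) else x i) = x i
      rw [if_neg hi.ne]
    have h3 : tr a (Phi H x) ∈ H a := (tr_mem (hH.dep a) _).2 hx'
    have h4 : Phi H x a = x a := by
      rw [Phi_eq, decide_eq_true h3, Bool.and_true]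
    have h5 : Phi H (σ x) a = !(x a) := by
      rw [Phi_eq, h2, decide_eq_true h3, Bool.and_true]
      show (if a = a then !(x a) else x a) = !(x a)
      rw [if_pos rfl]
    by_cases h6 : Phi H x a = Phi H x b
    · right
      show Phi H (σ x) a ≠ Phi H (σ x) b
      rw [h5, h1, ← h6, h4]
      cases x a <;> simp
    · exact Or.inl h6
  have h7 : (2⁻¹ : ℝ≥0∞) ≤ coins A {x | Phi H x a ≠ Phi H x b} +
      coins A {x | Phi H x a ≠ Phi H x b} := by
    refine (hH.half a).trans ((measure_mono hsub).trans ((measure_union_le _ _).trans ?_))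
    rw [hσ.measure_preimage hN.nullMeasurableSet]
  by_contra hcon
  have h8 := not_le.1 hcon
  have h9 : coins A {x | Phi H x a ≠ Phi H x b} + coins A {x | Phi H x a ≠ Phi H x b} <
      4⁻¹ + 4⁻¹ := ENNReal.add_lt_add h8 h8
  have h10 : (4⁻¹ : ℝ≥0∞) + 4⁻¹ = 2⁻¹ := by
    rw [← two_mul, show (4 : ℝ≥0∞) = 2 * 2 by norm_num, ENNReal.mul_inv (by simp) (by simp),
      ← mul_assoc, ENNReal.mul_inv_cancel (by simp) (by simp), one_mul]
  rw [h10] at h9
  exact absurd h7 (not_le.2 h9)

end Pool.Agent.H645.LD
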